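import Pool.Agent.H273Z.Nik.Main

set_option autoImplicit false
set_option linter.dupNamespace false

namespace Pool.Agent.Results.MP_a0ad85_lc.ConsistentlyNo

open Pool.Agent.H273Z.Nik
open Pool.Agent.Helper292.ForceCH (OmegaOnePreserved DiamondHolds)

/-- 1. Some notion of forcing forces the diamond principle (and keeps `ω₁`).
2. Diamond gives an infinite minimally generated Boolean algebra which has the Nikodym property
but not the strong Nikodym property. -/
theorem result :
    (∃ (P : Type) (_ : Preorder P), Nonempty P ∧ ∀ p : P,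
      p ∈ OmegaOnePreserved P ∧ p ∈ DiamondHolds P) ∧
    (Diamond → ∃ (B : Type) (_ : BooleanAlgebra B),
      Infinite B ∧ MinGen B ∧ Nikodym B ∧ ¬ StrongNikodym B) := by
  refine ⟨?_, main⟩
  obtain ⟨P, hP, hne, h⟩ := Pool.Agent.Helper292.ForceCH.exists_forcing
  exact ⟨P, hP, hne, fun p => ⟨(h p).1, (h p).2.1⟩⟩

end Pool.Agent.Results.MP_a0ad85_lc.ConsistentlyNo
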